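import Pool.Agent.V1282.GI2

open Set Filter Topology Pool.Agent.V1282.GI

namespace Pool.Agent.Results.MP_5c9c6a_an.TiltedQuartic

/-- In every dimension `N ≥ 2` there is a function `f` satisfying the standing
hypotheses (H) (the quartic polynomial `‖z‖⁴ + ‖z‖² - 3 z₀² + 3 z₁`), a connected
component `K` of `R(f)` and two distinct points `x, y` of `K` with
`∇f(x) = ∇f(y)` (both gradients vanish: `x` and `y` are two local minima of `f`). -/
theorem result (N : ℕ) (hN : 2 ≤ N) : ∃ f : E N → ℝ, Standing f ∧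
    ∃ x ∈ R f, ¬ InjOn (gradient f) (connectedComponentIn (R f) x) := by
  obtain ⟨n, rfl⟩ : ∃ n, N = n + 2 := ⟨N - 2, by omega⟩
  obtain ⟨f, hf, x, hx, y, hy, hne, hyx, hg⟩ := main n
  refine ⟨f, hf, x, hx, fun hinj => hne ?_⟩
  exact hinj (mem_connectedComponentIn hx) hyx hg

end Pool.Agent.Results.MP_5c9c6a_an.TiltedQuartic
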